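import Pool.Agent.K3h5.IB.Stm

/-!
# Iterated biased random walks: almost all inputs are good (brick GOODAS, helper4)
-/

set_option autoImplicit false

open MeasureTheory Filter Topology Pool.Agent.K3h5.IB

namespace Pool.Agent.K3h4.IB

open Classical in
theorem t_GOODAS : S_PROB → S_LLN → S_ASFAIR → S_BC → S_POS → S_GOODAS := by
  intro hP hL hF hB hpos d p q hpar
  have : IsProbabilityMeasure (PP p q) := (hP d p q hpar).2.2.1
  obtain ⟨r, hr, hBC⟩ := hB d p q hpar
  have h1 := hBC (fun _ => (1 : ℝ)) measurable_const (fun _ => zero_le_one)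
    (integrable_const (1 : ℝ))
  have h2 : 0 < r * ∫ x in {x | Cut (drift (p 0)) x 0}, (1 : ℝ) ∂(PP p q) := by
    rw [setIntegral_const, smul_eq_mul, mul_one]
    exact mul_pos hr (hpos d p q hpar)
  filter_upwards [h1, hL d p q hpar, hF d p q hpar] with x hx hl hf
  refine ⟨hl.2.2, ?_, hf.1, hf.2⟩
  intro N
  by_contra hcon
  have hno : ∀ c ≥ N, ¬ Cut (drift (p 0)) x c := fun c hc h => hcon ⟨c, hc, h⟩
  have hN : Tendsto (fun n : ℕ => (N : ℝ) / n) atTop (𝓝 0) :=
    tendsto_const_div_atTop_nhds_zero_nat (N : ℝ)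
  refine absurd (le_of_tendsto_of_tendsto' hx hN fun n => ?_) (not_le.2 h2)
  refine div_le_div_of_nonneg_right ?_ (Nat.cast_nonneg n)
  calc (∑ k ∈ Finset.range n, if Cut (drift (p 0)) x k then (1 : ℝ) else 0)
      ≤ ∑ k ∈ Finset.range n, if k < N then (1 : ℝ) else 0 := by
        refine Finset.sum_le_sum fun k _ => ?_
        by_cases hk : k < N
        · rw [if_pos hk]
          split_ifs
          · exact le_rfl
          · exact zero_le_one
        · rw [if_neg hk, if_neg (hno k (not_lt.1 hk))]
    _ = (((Finset.range n).filter fun k => k < N).card : ℝ) := by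
        rw [Finset.sum_ite, Finset.sum_const_zero, add_zero, Finset.sum_const, nsmul_eq_mul,
          mul_one]
    _ ≤ ((Finset.range N).card : ℝ) := by
        exact_mod_cast Finset.card_le_card fun k hk =>
          Finset.mem_range.2 (Finset.mem_filter.1 hk).2
    _ = N := by rw [Finset.card_range]

end Pool.Agent.K3h4.IB
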