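import Pool.Agent.K3h5.IB.Stm

/-!
# Iterated biased random walks: the path driven by stacks (brick ROUTE, helper4)
-/

set_option autoImplicit false

open MeasureTheory Filter Topology Pool.Agent.K3h5.IB

namespace Pool.Agent.K3h4.IB

variable {d : ℕ}

theorem hist_succ (s : V d → ℕ → V d) (n : ℕ) :
    hist s (n + 1) = route s (n + 1) :: hist s n := rfl

theorem route_zero (s : V d → ℕ → V d) : route s 0 = 0 := rfl

theorem count_hist (s : V d → ℕ → V d) (v : V d) : ∀ n : ℕ,
    (hist s n).count v = ((Finset.range (n + 1)).filter fun j => route s j = v).card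
  | 0 => by
      have h1 : hist s 0 = [route s 0] := rfl
      rw [h1, Finset.range_one, Finset.filter_singleton, List.count_cons, List.count_nil]
      by_cases h : route s 0 = v
      · rw [if_pos h]; simp [h]
      · rw [if_neg h]; simp [h]
  | n + 1 => by
      rw [hist_succ, List.count_cons, count_hist s v n, Finset.range_add_one (n := n + 1),
        Finset.filter_insert]
      by_cases h : route s (n + 1) = v
      · rw [if_pos h, Finset.card_insert_of_notMem (by simp)]; simp [h]
      · rw [if_neg h]; simp [h]

theorem count_tail (s : V d → ℕ → V d) (v : V d) : ∀ n : ℕ,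
    (hist s n).tail.count v = ((Finset.range n).filter fun j => route s j = v).card
  | 0 => by
      have h1 : hist s 0 = [0] := rfl
      rw [h1]; simp
  | n + 1 => by
      rw [hist_succ, List.tail_cons, count_hist s v n]

theorem route_driven (s : V d → ℕ → V d) : Driven s (route s) := by
  intro n
  have h1 : route s (n + 1) = s (route s n) ((hist s n).tail.count (route s n)) := rfl
  rw [h1, count_tail]
  rfl

theorem route_unique (s : V d → ℕ → V d) (y : ℕ → V d) (h0 : y 0 = 0) (hy : Driven s y) :
    ∀ n : ℕ, ∀ k ≤ n, y k = route s k
  | 0 => by
      intro k hk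
      obtain rfl : k = 0 := Nat.le_zero.1 hk
      rw [h0, route_zero]
  | n + 1 => by
      intro k hk
      have ih := route_unique s y h0 hy n
      rcases Nat.lt_or_ge k (n + 1) with h | h
      · exact ih k (Nat.lt_succ_iff.1 h)
      · obtain rfl : k = n + 1 := le_antisymm hk h
        have hc : cnt y n = cnt (route s) n := by
          unfold cnt
          congr 1
          apply Finset.filter_congr
          intro j hj
          rw [ih j (Finset.mem_range.1 hj).le, ih n le_rfl]
        rw [hy n, route_driven s n, hc, ih n le_rfl]

theorem t_ROUTE : S_ROUTE := by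
  intro d s y
  constructor
  · rintro ⟨h0, hy⟩
    funext n
    exact route_unique s y h0 hy n n le_rfl
  · rintro rfl
    exact ⟨route_zero s, route_driven s⟩

end Pool.Agent.K3h4.IB
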